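import Mathlib

set_option autoImplicit false

namespace Pool.Agent.Results.MP_f1e34e_co.Bounded

open Module Finset

universe u

/-- `(r, a, b)` is a slice rank decomposition of the tensor `T`. -/
def IsDec {F : Type u} [Field F] {d : ℕ} {n : Fin d → ℕ} (T : ((j : Fin d) → Fin (n j)) → F)
    (r : Fin d → ℕ) (a : (j : Fin d) → Fin (r j) → Fin (n j) → F)
    (b : (j : Fin d) → Fin (r j) → ((l : {l // l ≠ j}) → Fin (n l)) → F) : Prop :=
  ∀ x, T x = ∑ j, ∑ i, a j i (x j) * b j i fun l => x l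

/-- The slice rank of `T`. -/
noncomputable def sliceRank {F : Type u} [Field F] {d : ℕ} {n : Fin d → ℕ}
    (T : ((j : Fin d) → Fin (n j)) → F) : ℕ := sInf {k | ∃ r a b, IsDec T r a b ∧ ∑ j, r j = k}

section Aux

variable {F : Type u} [Field F]

lemma sect {M : Type u} [AddCommGroup M] [Module F M] (Z : Submodule F M) (K Y : ℕ → Submodule F M)
    (N : ℕ) (h1 : ∀ s, Y s ≤ Z) (h2 : ∀ s t, t < s → Y s ≤ K t)
    (h3 : ∀ s < N, Z ≤ Y s ⊔ Z ⊓ K s) : (∃ σ : (M ⧸ Z) →ₗ[F] M, (∀ x, x - σ (Z.mkQ x) ∈ Z) ∧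
      ∀ s < N, ∀ x ∈ K s ⊔ Z, σ (Z.mkQ x) ∈ K s) ∧
      Z ≤ Submodule.span F {z | z ∈ Z ∧ ∃ t, ∀ s < N, s ≠ t → z ∈ K s} := by
  induction N with
  | zero =>
    obtain ⟨σ, h⟩ := Z.mkQ.exists_rightInverse_of_surjective Z.range_mkQ
    refine ⟨⟨σ, fun x => ?_, by simp⟩, by simp⟩
    rw [← Submodule.Quotient.eq]
    exact (LinearMap.congr_fun h _).symm
  | succ N ih =>
    obtain ⟨⟨σ, a, b⟩, c⟩ := ih fun s hs => h3 s (by omega)
    have h4 := h3 N (by omega)
    constructor
    · obtain ⟨g, hg⟩ := ((K N).mkQ ∘ₗ (Y N).subtype).rangeRestrict.exists_rightInverse_of_surjective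
        (LinearMap.range_rangeRestrict _)
      obtain ⟨g', hg'⟩ := g.exists_extend
      refine ⟨σ - (Y N).subtype ∘ₗ g' ∘ₗ (K N).mkQ ∘ₗ σ, fun x => ?_, fun s hs x hx => ?_⟩
      · simp only [LinearMap.sub_apply, LinearMap.comp_apply, ← sub_add]
        exact add_mem (a x) (h1 N (Subtype.property _))
      · rcases (Nat.lt_succ_iff.1 hs).lt_or_eq with e | rfl
        · exact sub_mem (b s e x hx) (h2 N s e (Subtype.property _))
        · have m : σ (Z.mkQ x) ∈ Y s ⊔ K s := by
            have k : Z ≤ Y s ⊔ K s := h4.trans (sup_le_sup_left inf_le_right _)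
            simpa using sub_mem (sup_le le_sup_right k hx) (k (a x))
          obtain ⟨y, hy, z, hz, e⟩ := Submodule.mem_sup.1 m
          have e1 : (K s).mkQ (σ (Z.mkQ x)) = (K s).mkQ y := by
            rw [← e, map_add, (Submodule.Quotient.mk_eq_zero _).2 hz |> (Submodule.mkQ_apply _ _).trans,
              add_zero]
          have e2 := congrArg Subtype.val (LinearMap.congr_fun hg ⟨_, ⟨y, hy⟩, rfl⟩)
          have e3 := LinearMap.congr_fun hg' ⟨_, ⟨y, hy⟩, rfl⟩
          rw [LinearMap.sub_apply, ← Submodule.Quotient.eq]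
          simp only [LinearMap.comp_apply, Submodule.subtype_apply] at e2 e3 ⊢
          rw [e1, e3]
          exact e1.trans e2.symm
    · refine c.trans (Submodule.span_le.2 ?_)
      rintro z ⟨hz, t, ht⟩
      obtain ⟨y, hy, w, hw, rfl⟩ := Submodule.mem_sup.1 (h4 hz)
      refine add_mem (Submodule.subset_span ⟨h1 N hy, N, fun s hs e => h2 N s (by omega) hy⟩)
        (Submodule.subset_span ⟨hw.1, t, fun s hs e => ?_⟩)
      rcases (Nat.lt_succ_iff.1 hs).lt_or_eq with k | rfl
      · simpa using sub_mem (ht s k e) (h2 N s k hy)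
      · exact hw.2

variable {d : ℕ} {M : Fin d → Type u} [∀ j, AddCommGroup (M j)] [∀ j, Module F (M j)]

lemma van_span (f : MultilinearMap F M F) (S : ∀ j, Set (M j))
    (h : ∀ y, (∀ j, y j ∈ S j) → f y = 0) (y : ∀ j, M j) (hy : ∀ j, y j ∈ Submodule.span F (S j)) :
    f y = 0 := by
  choose c t a _ e using fun j => Submodule.mem_span_iff_exists_finset_subset.1 (hy j)
  rw [← funext e, f.map_sum_finset]
  refine sum_eq_zero fun r hr => ?_
  rw [f.map_smul_univ, h r fun j => a j (Fintype.mem_piFinset.1 hr j), smul_zero]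

variable [∀ j, FiniteDimensional F (M j)]

lemma robust (f : MultilinearMap F M F) (Z : ∀ j, Submodule F (M j))
    (K Y : ℕ → ∀ j, Submodule F (M j)) (c : ℕ) (hc : ∀ j, finrank F (M j ⧸ Z j) ≤ c)
    (h1 : ∀ s j, Y s j ≤ Z j) (h2 : ∀ s t j, t < s → Y s j ≤ K t j)
    (h3 : ∀ s < d * (c + 1) ^ d + 1, ∀ j, Z j ≤ Y s j ⊔ Z j ⊓ K s j)
    (h4 : ∀ s < d * (c + 1) ^ d + 1, ∀ y, (∀ j, y j ∈ K s j) → f y = 0) :
    ∃ s < d * (c + 1) ^ d + 1, ∀ y, (∀ j, y j ∈ K s j ⊔ Z j) → f y = 0 := by
  classical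
  have k := fun j => sect (Z j) (fun s => K s j) (fun s => Y s j) (d * (c + 1) ^ d + 1)
    (fun s => h1 s j) (fun s t => h2 s t j) fun s hs => h3 s hs j
  choose σ σ1 σ2 using fun j => (k j).1
  obtain ⟨G, hG⟩ : ∃ G : Set ((∀ j, M j) → F), G = {g | ∃ (J : Finset (Fin d)) (z : ∀ j, M j)
      (t : Fin d → ℕ), (∀ j, ∀ s < d * (c + 1) ^ d + 1, s ≠ t j → z j ∈ K s j) ∧
      g = fun x => f fun j => if j ∈ J then σ j ((Z j).mkQ (x j)) else z j} := ⟨_, rfl⟩
  obtain ⟨m, hm⟩ : ∃ m : (∀ j, Option (Fin (finrank F (M j ⧸ Z j)))) → (∀ j, M j) → F,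
      ∀ i x, m i x = ∏ j, (i j).elim 1 ((finBasis F (M j ⧸ Z j)).repr ((Z j).mkQ (x j))) :=
    ⟨_, fun _ _ => rfl⟩
  have le : Submodule.span F G ≤ Submodule.span F (Set.range m) := by
    rw [hG, Submodule.span_le]
    rintro _ ⟨J, z, t, -, rfl⟩
    refine (Submodule.mem_span_range_iff_exists_fun F).2 ⟨fun i => f fun j => (i j).elim
      (if j ∈ J then 0 else z j) fun l => if j ∈ J then σ j (finBasis F (M j ⧸ Z j) l) else 0, ?_⟩
    funext x
    simp only [Finset.sum_apply, Pi.smul_apply, hm, smul_eq_mul, mul_comm (f _)]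
    simp only [← smul_eq_mul, ← f.map_smul_univ]
    rw [← f.map_sum (g := fun j (o : Option (Fin (finrank F (M j ⧸ Z j)))) =>
      o.elim (1 : F) ((finBasis F (M j ⧸ Z j)).repr ((Z j).mkQ (x j))) • o.elim
      (if j ∈ J then 0 else z j) fun l => if j ∈ J then σ j (finBasis F (M j ⧸ Z j) l) else 0)]
    congr 1
    funext j
    rw [Fintype.sum_option]
    by_cases e : j ∈ J
    · simp only [e, if_true, Option.elim, smul_zero, zero_add, ← map_smul, ← map_sum, Basis.sum_repr]
    · simp [e]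
  have : Module.Finite F (Submodule.span F (Set.range m)) :=
    Module.Finite.span_of_finite F (Set.finite_range m)
  have : Module.Finite F (Submodule.span F G) := Submodule.finiteDimensional_of_le le
  obtain ⟨g, g1, g2, -⟩ := Submodule.exists_fun_fin_finrank_span_eq F G
  have fr : finrank F (Submodule.span F G) ≤ (c + 1) ^ d := by
    refine (Submodule.finrank_mono le).trans ((finrank_range_le_card m).trans ?_)
    rw [Fintype.card_pi]
    refine (prod_le_pow_card univ _ (c + 1) fun j _ => ?_).trans_eq (by simp)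
    simpa using hc j
  choose J z t a b using fun i => hG.subset (g1 i)
  obtain ⟨s, hs, hn⟩ := exists_mem_notMem_of_card_lt_card
    (s := univ.image fun p : Fin d × _ => t p.2 p.1) (t := range (d * (c + 1) ^ d + 1)) (by
      refine card_image_le.trans_lt ?_
      simpa [Nat.lt_succ_iff] using Nat.mul_le_mul_left d fr)
  simp only [mem_image, mem_univ, true_and, not_exists, mem_range, Prod.forall] at hs hn
  refine ⟨s, hs, fun x hx => ?_⟩
  have z0 : Submodule.span F G ≤ LinearMap.ker (LinearMap.proj x) := by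
    rw [← g2, Submodule.span_le]
    rintro _ ⟨i, rfl⟩
    rw [b i]
    refine h4 s hs _ fun j => ?_
    split_ifs
    exacts [σ2 j s hs _ (hx j), a i j s hs (Ne.symm (hn j i))]
  refine van_span f (fun j => insert (σ j ((Z j).mkQ (x j))) {z | z ∈ Z j ∧ ∃ t,
    ∀ s < d * (c + 1) ^ d + 1, s ≠ t → z ∈ K s j}) (fun y hy => ?_) x fun j => ?_
  · have e : ∀ j, ∃ t, ∀ s < d * (c + 1) ^ d + 1, s ≠ t →
        (if y j = σ j ((Z j).mkQ (x j)) then 0 else y j) ∈ K s j := fun j => by
      split_ifs with e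
      · exact ⟨0, fun _ _ _ => zero_mem _⟩
      · exact ((hy j).resolve_left e).2
    choose t ht using e
    have := z0 (Submodule.subset_span (hG.superset ⟨univ.filter
      fun j => y j = σ j ((Z j).mkQ (x j)), _, t, ht, rfl⟩))
    simp only [LinearMap.mem_ker, LinearMap.proj_apply, mem_filter, mem_univ, true_and] at this
    rw [← this]
    congr 1
    funext j
    split_ifs with e
    exacts [e, rfl]
  · simpa using add_mem (Submodule.span_mono (Set.subset_insert _ _) ((k j).2 (σ1 j (x j))))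
      (Submodule.subset_span (Set.mem_insert (σ j ((Z j).mkQ (x j))) _))

/-- total dimension -/
noncomputable def dm (Z : ∀ j, Submodule F (M j)) : ℕ := ∑ j, finrank F (Z j)

lemma dm_sup (A B : ∀ j, Submodule F (M j)) : dm (A ⊔ B) + dm (A ⊓ B) = dm A + dm B := by
  simp only [dm, ← sum_add_distrib]
  exact sum_congr rfl fun j _ => Submodule.finrank_sup_add_finrank_inf_eq _ _

lemma dm_mono {A B : ∀ j, Submodule F (M j)} (h : A ≤ B) : dm A ≤ dm B :=
  sum_le_sum fun j _ => Submodule.finrank_mono (h j)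

lemma dm_eq {A B : ∀ j, Submodule F (M j)} (h : A ≤ B) (e : dm B ≤ dm A) : A = B :=
  funext fun j => Submodule.eq_of_le_of_finrank_eq (h j) ((sum_eq_sum_iff_of_le
    fun j _ => Submodule.finrank_mono (h j)).1 ((dm_mono h).antisymm e) j (mem_univ j))

lemma quot_le {Z : ∀ j, Submodule F (M j)} {c : ℕ} (h : dm (⊤ : ∀ j, Submodule F (M j)) ≤ dm Z + c)
    (j : Fin d) : finrank F (M j ⧸ Z j) ≤ c := by
  have e : dm (⊤ : ∀ j, Submodule F (M j)) = ∑ j, finrank F (M j ⧸ Z j) + dm Z := by
    simp only [dm, ← sum_add_distrib, Submodule.finrank_quotient_add_finrank]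
    exact sum_congr rfl fun j _ => finrank_top _ _
  have := single_le_sum (f := fun j => finrank F (M j ⧸ Z j)) (fun _ _ => Nat.zero_le _) (mem_univ j)
  omega

/-- the bound -/
def bd (d k : ℕ) : ℕ → ℕ
  | 0 => 0
  | t + 1 => bd d k t + (d * (bd d k t + 1) ^ d + 1) * k

lemma iter (f : MultilinearMap F M F) (k : ℕ) (Mn : (∀ j, Submodule F (M j)) → Prop)
    (h1 : ∀ K, Mn K → dm K + k = dm (⊤ : ∀ j, Submodule F (M j)) ∧ ∀ y, (∀ j, y j ∈ K j) → f y = 0)
    (h2 : ∀ K : ∀ j, Submodule F (M j), (∀ y, (∀ j, y j ∈ K j) → f y = 0) →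
      dm K + k ≤ dm (⊤ : ∀ j, Submodule F (M j))) (t : ℕ) :
    ∃ Z : ∀ j, Submodule F (M j), dm (⊤ : ∀ j, Submodule F (M j)) ≤ dm Z + bd d k t ∧
      ∀ K, Mn K → dm Z ≤ dm (Z ⊓ K) + (k - t) := by
  induction t with
  | zero => exact ⟨⊤, le_rfl, fun K h => by simp [(h1 K h).1]⟩
  | succ t ih =>
    obtain ⟨Z, a, b⟩ := ih
    by_contra hc
    have ex : ∀ Y : ∀ j, Submodule F (M j), ∃ K, dm (⊤ : ∀ j, Submodule F (M j)) ≤ dm Y
        + bd d k (t + 1) → Mn K ∧ dm (Y ⊓ K) + (k - (t + 1)) < dm Y := fun Y => by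
      by_contra h
      push Not at h
      exact hc ⟨Y, (h ⊤).1, fun K m => (h K).2 m⟩
    choose nx hn using ex
    obtain ⟨Y, y0, y1⟩ : ∃ Y : ℕ → ∀ j, Submodule F (M j), Y 0 = Z ∧
      ∀ s, Y (s + 1) = Y s ⊓ nx (Y s) := ⟨fun s => (fun Y => Y ⊓ nx Y)^[s] Z, rfl,
        fun s => Function.iterate_succ_apply' _ _ _⟩
    have anti : Antitone Y := antitone_nat_of_succ_le fun s => (y1 s).trans_le inf_le_left
    have yz : ∀ s, Y s ≤ Z := fun s => y0 ▸ anti (Nat.zero_le s)
    have c : ∀ s ≤ d * (bd d k t + 1) ^ d + 1,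
        dm (⊤ : ∀ j, Submodule F (M j)) ≤ dm (Y s) + (bd d k t + s * k) := by
      intro s hs
      induction s with
      | zero => simpa [y0] using a
      | succ s ih =>
        have e := ih (by omega)
        have e1 := (h1 _ (hn _ (e.trans (Nat.add_le_add_left (Nat.add_le_add_left
          (Nat.mul_le_mul_right k (by omega)) _) _))).1).1
        have e2 := dm_sup (Y s) (nx (Y s))
        have e3 := dm_mono (le_top (a := Y s ⊔ nx (Y s)))
        rw [y1, add_mul]
        omega
    have c1 := fun s hs => hn _ ((c s hs).trans (Nat.add_le_add_left (Nat.add_le_add_left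
      (Nat.mul_le_mul_right k hs) _) _))
    have c2 : ∀ s ≤ d * (bd d k t + 1) ^ d + 1, dm (Z ⊓ nx (Y s)) < dm Z ∧
        Y s ⊔ Z ⊓ nx (Y s) = Z := by
      intro s hs
      have e1 := dm_sup (Y s) (Z ⊓ nx (Y s))
      rw [← inf_assoc, inf_eq_left.2 (yz s)] at e1
      have e2 := b _ (c1 s hs).1
      have e3 := (c1 s hs).2
      have e4 : Y s ⊔ Z ⊓ nx (Y s) ≤ Z := sup_le (yz s) inf_le_left
      have e5 := dm_mono e4
      exact ⟨by omega, dm_eq e4 (by omega)⟩
    obtain ⟨s, hs, h⟩ := robust f Z (fun s => nx (Y s)) Y _ (quot_le a) yz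
      (fun s r j h => ((anti h).trans ((y1 r).trans_le inf_le_right)) j)
      (fun s hs j => (c2 s hs.le).2.ge j) fun s hs => (h1 _ (c1 s hs.le).1).2
    have e1 := h2 (nx (Y s) ⊔ Z) h
    have e2 := (h1 _ (c1 s hs.le).1).1
    have e3 := dm_sup (nx (Y s)) Z
    have e4 := (c2 s hs.le).1
    rw [inf_comm] at e4
    omega

variable {n : Fin d → ℕ}

/-- the multilinear form of a tensor -/
noncomputable def fm (T : ((j : Fin d) → Fin (n j)) → F) :
    MultilinearMap F (fun j => Dual F (Fin (n j) → F)) F :=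
  ∑ x, T x • (MultilinearMap.mkPiAlgebra F (Fin d) F).compLinearMap
    fun j => Dual.eval F (Fin (n j) → F) (Pi.single (x j) 1)

lemma fm_apply (T : ((j : Fin d) → Fin (n j)) → F) (y : ∀ j, Dual F (Fin (n j) → F)) :
    fm T y = ∑ x, T x * ∏ j, y j (Pi.single (x j) 1) := by
  simp [fm]

lemma fm_proj (T : ((j : Fin d) → Fin (n j)) → F) (x : (j : Fin d) → Fin (n j)) :
    fm T (fun j => LinearMap.proj (x j)) = T x := by
  rw [fm_apply, sum_eq_single x (fun z _ e => ?_) (by simp)]
  · simp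
  · obtain ⟨j, hj⟩ := Function.ne_iff.1 e
    rw [prod_eq_zero (mem_univ j) (by simp [hj.symm]), mul_zero]

lemma dec_van {T : ((j : Fin d) → Fin (n j)) → F} {r a b} (h : IsDec T r a b)
    (y : ∀ j, Dual F (Fin (n j) → F)) (hy : ∀ j i, y j (a j i) = 0) : fm T y = 0 := by
  simp only [fm_apply, h _, sum_mul]
  rw [sum_comm]
  refine sum_eq_zero fun j _ => sum_comm.trans (sum_eq_zero fun i _ => ?_)
  rw [← (Equiv.piSplitAt j _).symm.sum_comp, Fintype.sum_prod_type, sum_comm]
  refine sum_eq_zero fun z _ => ?_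
  have e := hy j i
  rw [← Finset.univ_sum_single (a j i), map_sum] at e
  rw [← mul_zero (b j i z * ∏ l : {l // l ≠ j}, y l (Pi.single (z l) 1)), ← e, mul_sum]
  refine sum_congr rfl fun c _ => ?_
  have e1 : ∀ l : {l // l ≠ j}, (Equiv.piSplitAt j fun j => Fin (n j)).symm (c, z) l = z l :=
    fun l => by simp [Equiv.piSplitAt, l.2]
  have e2 : (Equiv.piSplitAt j fun j => Fin (n j)).symm (c, z) j = c := by simp [Equiv.piSplitAt]
  rw [Fintype.prod_eq_mul_prod_subtype_ne _ j, e2, show Pi.single c (a j i c)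
    = a j i c • (Pi.single c 1 : Fin (n j) → F) by rw [← Pi.single_smul]; simp, map_smul]
  simp only [e1, smul_eq_mul]
  ring

lemma van_dec (T : ((j : Fin d) → Fin (n j)) → F) (K : ∀ j, Submodule F (Dual F (Fin (n j) → F)))
    (h : ∀ y, (∀ j, y j ∈ K j) → fm T y = 0) :
    ∃ a b, IsDec T (fun j => finrank F (K j).dualCoannihilator) a b := by
  classical
  choose α hα using fun j i => ((finBasis F (K j).dualCoannihilator).coord i).exists_extend
  obtain ⟨P, hP⟩ : ∃ P : ∀ j, Fin (n j) → Dual F (Fin (n j) → F), ∀ j c, P j c = LinearMap.proj c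
    - ∑ i, (finBasis F (K j).dualCoannihilator i).1 c • α j i := ⟨_, fun _ _ => rfl⟩
  have pk : ∀ j c, P j c ∈ K j := fun j c => by
    rw [← Subspace.dualCoannihilator_dualAnnihilator_eq (W := K j), Submodule.mem_dualAnnihilator]
    intro w hw
    have e := congrFun (congrArg Subtype.val ((finBasis F (K j).dualCoannihilator).sum_repr
      ⟨w, hw⟩)) c
    have e1 := fun i => LinearMap.congr_fun (hα j i) ⟨w, hw⟩
    simp only [LinearMap.comp_apply, Submodule.subtype_apply, Basis.coord_apply] at e1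
    simp only [hP, LinearMap.sub_apply, LinearMap.proj_apply, LinearMap.sum_apply,
      LinearMap.smul_apply, e1]
    rw [sub_eq_zero]
    rw [Submodule.coe_sum, Finset.sum_apply] at e
    refine e.symm.trans (sum_congr rfl fun i _ => ?_)
    simp [mul_comm]
  refine ⟨fun j i => (finBasis F (K j).dualCoannihilator i).1, fun j i => Function.extend
    (fun (x : (j : Fin d) → Fin (n j)) (l : {l // l ≠ j}) => x l) (fun x => fm T (Function.update
      (fun l => if l < j then LinearMap.proj (x l) else P l (x l)) j (α j i))) 0, fun x => ?_⟩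
  have e := (fm T).map_sub_map_piecewise (fun l => LinearMap.proj (x l)) (fun l => P l (x l)) univ
  rw [piecewise_univ, h _ fun l => pk l (x l), sub_zero, fm_proj] at e
  rw [e]
  refine sum_congr rfl fun j _ => ?_
  have e1 : ∀ i, Function.FactorsThrough (fun x : (j : Fin d) → Fin (n j) => fm T (Function.update
      (fun l => if l < j then LinearMap.proj (x l) else P l (x l)) j (α j i)))
      fun x (l : {l // l ≠ j}) => x l := fun i u v e => by
    simp only
    congr 1
    funext l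
    by_cases k : l = j
    · subst k; simp
    · simp [k, congrFun e ⟨l, k⟩]
  simp only [fun i => (e1 i).extend_apply 0 x, ← smul_eq_mul, ← MultilinearMap.map_update_smul,
    ← MultilinearMap.map_update_sum]
  congr 1
  funext l
  by_cases k : l = j
  · subst k; simp [hP]
  · simp [k, Ne.symm k]

end Aux

/-- All minimal slice rank decompositions of a tensor of slice rank `k` have their one-variable
factors in subspaces of bounded dimension. -/
theorem result (d k : ℕ) : ∃ C : ℕ, ∀ (F : Type u) [Field F] (n : Fin d → ℕ)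
    (T : ((j : Fin d) → Fin (n j)) → F), sliceRank T = k →
    ∃ A : (j : Fin d) → Submodule F (Fin (n j) → F), (∀ j, finrank F (A j) ≤ C) ∧
      ∀ r a b, IsDec T r a b → ∑ j, r j = k → ∀ j, Submodule.span F (Set.range (a j)) ≤ A j := by
  refine ⟨bd d k k, fun F _ n T hT => ?_⟩
  have top : dm (⊤ : ∀ j, Submodule F (Dual F (Fin (n j) → F))) = ∑ j, finrank F (Fin (n j) → F) :=
    sum_congr rfl fun j _ => (finrank_top _ _).trans Subspace.dual_finrank_eq
  have h2 : ∀ K : ∀ j, Submodule F (Dual F (Fin (n j) → F)), (∀ y, (∀ j, y j ∈ K j) → fm T y = 0) →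
      dm K + k ≤ dm (⊤ : ∀ j, Submodule F (Dual F (Fin (n j) → F))) := fun K h => by
    obtain ⟨a, b, e⟩ := van_dec T K h
    have : sliceRank T ≤ _ := Nat.sInf_le ⟨_, a, b, e, rfl⟩
    refine (Nat.add_le_add_left (hT.ge.trans this) _).trans_eq ?_
    rw [top]
    simp only [dm, ← sum_add_distrib, Subspace.finrank_add_finrank_dualCoannihilator_eq]
  obtain ⟨Z, z1, z2⟩ := iter (fm T) k (fun K => dm K + k = dm (⊤ : ∀ j, Submodule F
    (Dual F (Fin (n j) → F))) ∧ ∀ y, (∀ j, y j ∈ K j) → fm T y = 0) (fun _ h => h) h2 k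
  refine ⟨fun j => (Z j).dualCoannihilator, fun j => ?_, fun r a b h e j => ?_⟩
  · have := quot_le z1 j
    have e1 := Subspace.finrank_add_finrank_dualCoannihilator_eq (Z j)
    have e2 := (Z j).finrank_quotient_add_finrank
    rw [Subspace.dual_finrank_eq] at e2
    beta_reduce
    omega
  · have v : ∀ y : ∀ j, Dual F (Fin (n j) → F),
        (∀ j, y j ∈ (Submodule.span F (Set.range (a j))).dualAnnihilator) → fm T y = 0 :=
      fun y hy => dec_van h y fun j i =>
        (Submodule.mem_dualAnnihilator _).1 (hy j) _ (Submodule.subset_span ⟨i, rfl⟩)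
    have := z2 _ ⟨(h2 _ v).antisymm (by
      rw [top, ← e, dm, ← sum_add_distrib]
      refine sum_le_sum fun j _ => ?_
      have e1 := Subspace.finrank_add_finrank_dualAnnihilator_eq
        (Submodule.span F (Set.range (a j)))
      have e2 : finrank F (Submodule.span F (Set.range (a j))) ≤ r j :=
        (finrank_range_le_card (R := F) (a j)).trans_eq (by simp)
      omega), v⟩
    rw [Nat.sub_self, add_zero] at this
    exact Submodule.le_dualAnnihilator_iff_le_dualCoannihilator.1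
      (inf_eq_left.1 (dm_eq inf_le_left this) j)

end Pool.Agent.Results.MP_f1e34e_co.Bounded
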